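import Pool.Agent.H13.LN.Targets

/-!
# Row EVA of `lnt_modules` (helper73, MP_559314_gt)
-/

set_option autoImplicit false

open Finset Pool.Agent.H59.LIN Pool.Agent.H13.LN

namespace Pool.Agent.H73.LNT

theorem nd_cons {n : ℕ} (i : Fin n) (b : Bool) (u : Wd n) :
    nd ((i, b) :: u) = nd u + (if b then 1 else 0) := by
  unfold nd
  rw [List.countP_cons]

theorem ev_append {n : ℕ} (u : Wd n) : ∀ (k : ℕ) (v : Wd n) (p : Fin (n + 1)),
    ev k (u ++ v) p = ev k u p ++ ev (k + nd u) v (run u p) := by
  induction u with
  | nil =>
    intro k v p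
    simp [ev, run, nd]
  | cons x u ih =>
    obtain ⟨i, b⟩ := x
    intro k v p
    show (if b = true ∧ (p = i.castSucc ∨ p = i.succ) then [k] else []) ++
      ev (if b = true then k + 1 else k) (u ++ v) (tr i p) =
      ((if b = true ∧ (p = i.castSucc ∨ p = i.succ) then [k] else []) ++
      ev (if b = true then k + 1 else k) u (tr i p)) ++
      ev (k + nd ((i, b) :: u)) v (run u (tr i p))
    rw [ih, nd_cons, ← List.append_assoc]
    have e : (if b = true then k + 1 else k) + nd u = k + (nd u + (if b = true then 1 else 0)) := by
      cases b <;> simp <;> omega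
    rw [e]

theorem ev_shift {n : ℕ} (m : ℕ) (u : Wd n) : ∀ (k : ℕ) (p : Fin (n + 1)),
    ev (k + m) u p = (ev k u p).map (· + m) := by
  induction u with
  | nil =>
    intro k p
    simp [ev]
  | cons x u ih =>
    obtain ⟨i, b⟩ := x
    intro k p
    unfold ev
    have e : (if b = true then k + m + 1 else k + m) = (if b = true then k + 1 else k) + m := by
      cases b <;> simp <;> omega
    rw [e, ih, List.map_append]
    congr 1
    split_ifs <;> simp

theorem ev_bd {n : ℕ} (u : Wd n) : ∀ (k : ℕ) (p : Fin (n + 1)),
    (ev k u p).Pairwise (· < ·) ∧ ∀ m ∈ ev k u p, k ≤ m ∧ m < k + nd u := by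
  induction u with
  | nil =>
    intro k p
    simp [ev]
  | cons x u ih =>
    obtain ⟨i, b⟩ := x
    intro k p
    rw [nd_cons]
    unfold ev
    by_cases hb : b = true
    · subst hb
      simp only [if_true, true_and]
      obtain ⟨h1, h2⟩ := ih (k + 1) (tr i p)
      by_cases hp : p = i.castSucc ∨ p = i.succ
      · rw [if_pos hp]
        constructor
        · rw [List.singleton_append, List.pairwise_cons]
          refine ⟨fun m hm => ?_, h1⟩
          have := (h2 m hm).1
          omega
        · intro m hm
          rw [List.singleton_append, List.mem_cons] at hm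
          rcases hm with hm | hm
          · omega
          · have := h2 m hm
            omega
      · rw [if_neg hp, List.nil_append]
        refine ⟨h1, fun m hm => ?_⟩
        have := h2 m hm
        omega
    · rw [if_neg (fun h => hb h.1), if_neg hb, if_neg hb, List.nil_append]
      obtain ⟨h1, h2⟩ := ih k (tr i p)
      exact ⟨h1, fun m hm => by have := h2 m hm; omega⟩

/-- EVA -/
theorem eva (hRUN : T_RUN) : T_EVA :=
  ⟨fun n k u v p => ev_append u k v p, fun n k m u p => ev_shift m u k p,
    fun n k u p => ev_bd u k p⟩

end Pool.Agent.H73.LNT
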