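import Pool.Agent.H13.LN.Targets

/-!
# Row EVP of `lnt_modules` (helper73, MP_559314_gt)
-/

set_option autoImplicit false

open Finset Pool.Agent.H59.LIN Pool.Agent.H13.LN

namespace Pool.Agent.H73.LNT

theorem evp_aux (hEVA : T_EVA) {n : ℕ} (w : Wd n) : ∀ (σ : Equiv.Perm (Fin (n + 1)))
    (p : Fin (n + 1)) (k m : ℕ), k + m ∈ ev k w (σ p) ↔
      ∃ x, (pr σ w)[m]? = some x ∧ (p = x.1 ∨ p = x.2) := by
  induction w with
  | nil =>
    intro σ p k m
    simp [ev, pr]
  | cons y w ih =>
    obtain ⟨i, b⟩ := y
    intro σ p k m
    have e1 : tr i (σ p) = (σ.trans (tr i)) p := rfl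
    unfold ev pr
    rw [e1]
    have hc1 : (σ p = i.castSucc) ↔ (p = σ.symm i.castSucc) := Equiv.eq_symm_apply σ |>.symm
    have hc2 : (σ p = i.succ) ↔ (p = σ.symm i.succ) := Equiv.eq_symm_apply σ |>.symm
    cases b with
    | true =>
      simp only [if_true, true_and, List.singleton_append]
      cases m with
      | zero =>
        rw [List.getElem?_cons_zero, List.mem_append]
        constructor
        · rintro (h | h)
          · split_ifs at h with h'
            · exact ⟨_, rfl, by rw [← hc1, ← hc2]; exact h'⟩
            · simp at h
          · have := ((hEVA.2.2 n (k + 1) w ((σ.trans (tr i)) p)).2 _ h).1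
            omega
        · rintro ⟨x, hx, hx'⟩
          left
          simp only [Option.some.injEq] at hx
          subst hx
          rw [if_pos (by rw [hc1, hc2]; exact hx')]
          simp
      | succ m =>
        rw [List.getElem?_cons_succ, List.mem_append, ← ih (σ.trans (tr i)) p (k + 1) m]
        have e2 : k + (m + 1) = k + 1 + m := by omega
        rw [e2]
        constructor
        · rintro (h | h)
          · split_ifs at h
            · simp at h
              omega
            · simp at h
          · exact h
        · intro h
          exact Or.inr h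
    | false =>
      rw [if_neg (by simp), if_neg (by simp), if_neg (by simp), List.nil_append, List.nil_append]
      exact ih (σ.trans (tr i)) p k m

/-- EVP -/
theorem evp (hRUN : T_RUN) (hEVA : T_EVA) (hPRL : T_PRL) : T_EVP := by
  intro n f p k
  have h := evp_aux hEVA f (Equiv.refl _) p 0 k
  rw [Nat.zero_add] at h
  exact h

end Pool.Agent.H73.LNT
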