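import Pool.Agent.H13.LN.Targets

/-!
# Row PRL of `lnt_modules` (helper73, MP_559314_gt)
-/

set_option autoImplicit false

open Finset Pool.Agent.H59.LIN Pool.Agent.H13.LN

namespace Pool.Agent.H73.LNT

theorem rp_cons (hRUN : T_RUN) {n : ℕ} (x : Fin n × Bool) (u : Wd n) :
    rp (x :: u) = (tr x.1).trans (rp u) := by
  ext p
  have h := hRUN.2.2.1
  rw [h n (x :: u) p, Equiv.trans_apply, h n u]
  rfl

theorem rp_nil {n : ℕ} : rp ([] : Wd n) = Equiv.refl _ := rfl

/-- PRL -/
theorem prl (hRUN : T_RUN) : T_PRL := by
  refine ⟨?_, ?_, ?_, ?_⟩
  · intro n σ u v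
    induction u generalizing σ with
    | nil =>
      rw [rp_nil, Equiv.trans_refl]
      rfl
    | cons x u ih =>
      obtain ⟨i, b⟩ := x
      rw [rp_cons hRUN, List.cons_append]
      show (if b = true then [(σ.symm i.castSucc, σ.symm i.succ)] else []) ++
        pr (σ.trans (tr i)) (u ++ v) = ((if b = true then [(σ.symm i.castSucc, σ.symm i.succ)]
        else []) ++ pr (σ.trans (tr i)) u) ++ pr (σ.trans ((tr i).trans (rp u))) v
      rw [ih, List.append_assoc, Equiv.trans_assoc]
  · intro n σ ρ u
    induction u generalizing σ with
    | nil => rfl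
    | cons x u ih =>
      obtain ⟨i, b⟩ := x
      show (if b = true then [((ρ.trans σ).symm i.castSucc, (ρ.trans σ).symm i.succ)] else []) ++
        pr ((ρ.trans σ).trans (tr i)) u = ((if b = true then
        [(σ.symm i.castSucc, σ.symm i.succ)] else []) ++ pr (σ.trans (tr i)) u).map
        (fun x => (ρ.symm x.1, ρ.symm x.2))
      rw [Equiv.trans_assoc, ih, List.map_append]
      congr 1
      split_ifs <;> rfl
  · intro n σ u
    induction u generalizing σ with
    | nil => rfl
    | cons x u ih =>
      obtain ⟨i, b⟩ := x
      show ((if b = true then [(σ.symm i.castSucc, σ.symm i.succ)] else []) ++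
        pr (σ.trans (tr i)) u).length = nd ((i, b) :: u)
      rw [List.length_append, ih]
      unfold nd
      rw [List.countP_cons, add_comm]
      congr 1
      cases b <;> rfl
  · intro n σ u
    induction u generalizing σ with
    | nil =>
      intro x hx
      simp [pr] at hx
    | cons y u ih =>
      obtain ⟨i, b⟩ := y
      intro x hx
      have hx' : x ∈ (if b = true then [(σ.symm i.castSucc, σ.symm i.succ)] else []) ++
        pr (σ.trans (tr i)) u := hx
      rw [List.mem_append] at hx'
      rcases hx' with h | h
      · split_ifs at h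
        · rw [List.mem_singleton] at h
          rw [h]
          intro hc
          have h1 := σ.symm.injective hc
          have h2 : (i.castSucc : Fin (n + 1)).1 = i.succ.1 := congrArg Fin.val h1
          simp at h2
        · simp at h
      · exact ih _ x h

end Pool.Agent.H73.LNT
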